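import Pool.Agent.Helper53.UW.Num
import Pool.Agent.Helper36.UV.TLS

/-!
# PROJECT UR3 (MP_c578c8_lc): packet QWO, the family is good

First the tables of an arbitrary family of machines `m`, adapted from `Pool/Agent/Helper36/UV/TLS.lean`.
-/

namespace Pool.Agent.Helper44.UW

open Pool.Agent.Helper65.LinSpace Pool.Agent.Helper78.Mpc
open Pool.Agent.Helper65.BR (bT lT)
open Pool.Agent.Helper65.RT (CT ls_CT)
open Pool.Agent.Helper56.BR (two_pow_CT bT_le)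
open Pool.Agent.Helper53.CTG (ev Et)
open Pool.Agent.Helper53.UR (kd tb1 dv pv)
open Pool.Agent.Helper53.UV
open Pool.Agent.Helper36.UV (ls_kd)
open Pool.Agent.Helper81.Sus2 (Prm LSP CS)
open Pool.Agent.Helper81.Sus3 (vN v0 LSW_stmt)
open Pool.Agent.Helper53.UW

/-- The functions of a family of machines are computed in linear space. -/
structure LM {κ : Type} [Ctx κ] (m : κ → RM) (e N b C D : κ → ℕ) : Prop where
  hC : LS C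
  hD : LS D
  hs : LS fun z => (m z).s
  hg : LS fun z => (m z).g
  bs : ∀ z, 2 ^ (m z).s ≤ C z
  ba : ∀ z, 2 ^ (m z).a ≤ C z
  bg : ∀ z, 2 ^ (m z).g ≤ C z
  hN : ∀ z q v, (m z).N q v < 2 ^ (m z).s
  hW : ∀ z q v x c, (m z).W q v x c < 2 ^ (m z).a
  lA : LS fun x : κ × ℕ => (m x.1).A x.2
  lR : LS fun x : κ × ℕ × ℕ => (m x.1).R x.2.1 x.2.2
  lN : LS fun x : κ × ℕ × ℕ => (m x.1).N x.2.1 x.2.2
  lW : LS fun x : κ × ℕ × ℕ × ℕ × ℕ => (m x.1).W x.2.1 x.2.2.1 x.2.2.2.1 x.2.2.2.2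
  lq0 : LS fun z => (m z).q0
  lM0 : LS fun x : κ × ℕ => (m x.1).M0 x.2
  le : LS e
  be : ∀ z, 2 ^ e z ≤ D z
  bp : ∀ z t, t < 2 ^ e z → 2 ^ ((m z).s + (m z).g * t) ≤ D z
  lNN : LS N
  lb : LS b

section
variable {κ : Type} [Ctx κ] {m : κ → RM} {e N b C D : κ → ℕ} (h : LM m e N b C D)
include h

theorem ls_ps : LS (fun z : κ => 2 ^ (m z).s) := LS.pow_of_le (LS.const 2) h.hs h.hC h.bs

theorem ls_pg : LS (fun z : κ => 2 ^ (m z).g) := LS.pow_of_le (LS.const 2) h.hg h.hC h.bg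

theorem ls_vz : LS (fun x : κ × ℕ × ℕ => vz (m x.1) x.2.1 x.2.2) := by
  unfold vz
  have h1 : LS (fun x : κ × ℕ × ℕ => 2 ^ (m x.1).g) :=
    LS.comp (g := fun z : κ => 2 ^ (m z).g) (ls_pg h) (by fun_prop)
  have h2 : LS (fun x : κ × ℕ × ℕ => 2 ^ (m x.1).s) :=
    LS.comp (g := fun z : κ => 2 ^ (m z).s) (ls_ps h) (by fun_prop)
  exact LS.dig h1 (LS.div (by fun_prop) h2) (by fun_prop)

theorem ls_st : LS (fun x : κ × ℕ × ℕ => st (m x.1) x.2.1 x.2.2) := by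
  unfold st
  have h2 : LS (fun x : κ × ℕ × ℕ => 2 ^ (m x.1).s) :=
    LS.comp (g := fun z : κ => 2 ^ (m z).s) (ls_ps h) (by fun_prop)
  have hC : LS (fun x : κ × ℕ × ℕ => C x.1) :=
    LS.comp (g := fun z : κ => C z) h.hC (by fun_prop)
  refine LS.nrec (G := fun x : κ × ℕ × ℕ => x.2.1 % 2 ^ (m x.1).s) (N := fun x => x.2.2)
    (C := fun x => x.2.1 + C x.1)
    (K := fun x t q => (m x.1).N q (vz (m x.1) x.2.1 t)) (LS.mod (by fun_prop) h2)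
    (by fun_prop) (LS.add (by fun_prop) hC) ?_ ?_
  · have h3 : LS (fun p : (κ × ℕ × ℕ) × ℕ × ℕ => vz (m p.1.1) p.1.2.1 p.2.1) :=
      LS.comp (g := fun x : κ × ℕ × ℕ => vz (m x.1) x.2.1 x.2.2)
        (f := fun p : (κ × ℕ × ℕ) × ℕ × ℕ => (p.1.1, p.1.2.1, p.2.1)) (ls_vz h) (by fun_prop)
    exact LS.comp (g := fun z : κ × ℕ × ℕ => (m z.1).N z.2.1 z.2.2)
      (f := fun p : (κ × ℕ × ℕ) × ℕ × ℕ => (p.1.1, p.2.2, vz (m p.1.1) p.1.2.1 p.2.1))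
      h.lN (by fun_prop)
  · intro x i _
    cases i with
    | zero => exact (Nat.mod_le _ _).trans (Nat.le_add_right _ _)
    | succ i =>
      rw [nrec_succ]
      have h4 := h.hN x.1 (nrec (x.2.1 % 2 ^ (m x.1).s)
        (fun t q => (m x.1).N q (vz (m x.1) x.2.1 t)) i) (vz (m x.1) x.2.1 i)
      have h5 := h.bs x.1
      exact (h4.le.trans h5).trans (Nat.le_add_left _ _)

theorem ls_ct : LS (fun x : κ × ℕ × ℕ × ℕ × ℕ =>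
    ct (m x.1) x.2.1 x.2.2.1 x.2.2.2.1 x.2.2.2.2) := by
  unfold ct
  have hC : LS (fun x : κ × ℕ × ℕ × ℕ × ℕ => C x.1) :=
    LS.comp (g := fun z : κ => C z) h.hC (by fun_prop)
  refine LS.nrec (G := fun x : κ × ℕ × ℕ × ℕ × ℕ => x.2.2.2.1) (N := fun x => x.2.2.2.2)
    (C := fun x => x.2.2.2.1 + C x.1)
    (K := fun x t c => (m x.1).W (st (m x.1) x.2.1 t) (vz (m x.1) x.2.1 t) x.2.2.1 c)
    (by fun_prop) (by fun_prop) (LS.add (by fun_prop) hC) ?_ ?_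
  · have h3 : LS (fun p : (κ × ℕ × ℕ × ℕ × ℕ) × ℕ × ℕ => vz (m p.1.1) p.1.2.1 p.2.1) :=
      LS.comp (g := fun x : κ × ℕ × ℕ => vz (m x.1) x.2.1 x.2.2)
        (f := fun p : (κ × ℕ × ℕ × ℕ × ℕ) × ℕ × ℕ => (p.1.1, p.1.2.1, p.2.1)) (ls_vz h)
        (by fun_prop)
    have h4 : LS (fun p : (κ × ℕ × ℕ × ℕ × ℕ) × ℕ × ℕ => st (m p.1.1) p.1.2.1 p.2.1) :=
      LS.comp (g := fun x : κ × ℕ × ℕ => st (m x.1) x.2.1 x.2.2)
        (f := fun p : (κ × ℕ × ℕ × ℕ × ℕ) × ℕ × ℕ => (p.1.1, p.1.2.1, p.2.1)) (ls_st h)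
        (by fun_prop)
    exact LS.comp
      (g := fun z : κ × ℕ × ℕ × ℕ × ℕ => (m z.1).W z.2.1 z.2.2.1 z.2.2.2.1 z.2.2.2.2)
      (f := fun p : (κ × ℕ × ℕ × ℕ × ℕ) × ℕ × ℕ => (p.1.1, st (m p.1.1) p.1.2.1 p.2.1,
        vz (m p.1.1) p.1.2.1 p.2.1, p.1.2.2.1, p.2.2))
      h.lW (by fun_prop)
  · intro x i _
    cases i with
    | zero => exact Nat.le_add_right _ _
    | succ i =>
      rw [nrec_succ]
      have h4 := h.hW x.1 (st (m x.1) x.2.1 i) (vz (m x.1) x.2.1 i) x.2.2.1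
        (nrec x.2.2.2.1
          (fun t c => (m x.1).W (st (m x.1) x.2.1 t) (vz (m x.1) x.2.1 t) x.2.2.1 c) i)
      have h5 := h.ba x.1
      exact (h4.le.trans h5).trans (Nat.le_add_left _ _)

theorem ls_dv : LS (fun x : κ × ℕ => dv (e x.1) x.2) := by
  unfold dv
  have h1 : LS (fun x : κ × ℕ => e x.1) :=
    LS.comp (g := fun z : κ => e z) h.le (by fun_prop)
  have h2 : LS (fun x : κ × ℕ => Nat.log 2 x.2) := LS.log2 (by fun_prop)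
  exact LS.mod h2 (LS.add h1 (LS.const 3))

theorem ls_pv : LS (fun x : κ × ℕ => pv (e x.1) x.2) := by
  unfold pv
  exact LS.modPow (LS.const 2) (by fun_prop) (ls_dv h)

theorem ls_pe : LS (fun z : κ => 2 ^ e z) := LS.pow_of_le (LS.const 2) h.le h.hD h.be

/-- The power in the last table. -/
theorem ls_pow : LS (fun x : κ × ℕ => 2 ^ ((m x.1).s + (m x.1).g * (x.2 % 2 ^ e x.1))) := by
  have h1 : LS (fun x : κ × ℕ => 2 ^ e x.1) :=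
    LS.comp (g := fun z : κ => 2 ^ e z) (ls_pe h) (by fun_prop)
  have h2 : LS (fun x : κ × ℕ => (m x.1).s) :=
    LS.comp (g := fun z : κ => (m z).s) h.hs (by fun_prop)
  have h3 : LS (fun x : κ × ℕ => (m x.1).g) :=
    LS.comp (g := fun z : κ => (m z).g) h.hg (by fun_prop)
  have hD : LS (fun x : κ × ℕ => D x.1) :=
    LS.comp (g := fun z : κ => D z) h.hD (by fun_prop)
  refine LS.pow_of_le (C := fun x : κ × ℕ => D x.1) (LS.const 2)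
    (LS.add h2 (LS.mul h3 (LS.mod (by fun_prop) h1))) hD fun x => h.bp x.1 _ ?_
  exact Nat.mod_lt _ (by positivity)

theorem tls : LS (fun x : κ × ℕ × ℕ × ℕ × ℕ × ℕ =>
    tb (m x.1) (e x.1) (N x.1) (b x.1) x.2.1 x.2.2.1 x.2.2.2.1 x.2.2.2.2.1 x.2.2.2.2.2) := by
  -- the node
  have hd : LS (fun x : κ × ℕ × ℕ × ℕ × ℕ × ℕ => dv (e x.1) x.2.2.1) :=
    LS.comp (g := fun x : κ × ℕ => dv (e x.1) x.2)
      (f := fun x : κ × ℕ × ℕ × ℕ × ℕ × ℕ => (x.1, x.2.2.1)) (ls_dv h) (by fun_prop)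
  have hp : LS (fun x : κ × ℕ × ℕ × ℕ × ℕ × ℕ => pv (e x.1) x.2.2.1) :=
    LS.comp (g := fun x : κ × ℕ => pv (e x.1) x.2)
      (f := fun x : κ × ℕ × ℕ × ℕ × ℕ × ℕ => (x.1, x.2.2.1)) (ls_pv h) (by fun_prop)
  have he : LS (fun x : κ × ℕ × ℕ × ℕ × ℕ × ℕ => e x.1) :=
    LS.comp (g := fun z : κ => e z) h.le (by fun_prop)
  have hk : LS (fun x : κ × ℕ × ℕ × ℕ × ℕ × ℕ =>
      kd (e x.1) (dv (e x.1) x.2.2.1) (pv (e x.1) x.2.2.1)) :=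
    LS.comp (g := fun x : ℕ × ℕ × ℕ => kd x.1 x.2.1 x.2.2)
      (f := fun x : κ × ℕ × ℕ × ℕ × ℕ × ℕ => (e x.1, dv (e x.1) x.2.2.1, pv (e x.1) x.2.2.1))
      ls_kd (LS.prodMk he (LS.prodMk hd hp))
  have hpe : LS (fun x : κ × ℕ × ℕ × ℕ × ℕ × ℕ => 2 ^ e x.1) :=
    LS.comp (g := fun z : κ => 2 ^ e z) (ls_pe h) (by fun_prop)
  -- the position in the part
  have ht : LS (fun x : κ × ℕ × ℕ × ℕ × ℕ × ℕ => pv (e x.1) x.2.2.1 % 2 ^ e x.1) :=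
    LS.mod hp hpe
  have hst : LS (fun x : κ × ℕ × ℕ × ℕ × ℕ × ℕ =>
      st (m x.1) x.2.2.2.1 (pv (e x.1) x.2.2.1 % 2 ^ e x.1)) :=
    LS.comp (g := fun x : κ × ℕ × ℕ => st (m x.1) x.2.1 x.2.2)
      (f := fun x : κ × ℕ × ℕ × ℕ × ℕ × ℕ => (x.1, x.2.2.2.1,
        pv (e x.1) x.2.2.1 % 2 ^ e x.1))
      (ls_st h) (by fun_prop)
  have hA : LS (fun x : κ × ℕ × ℕ × ℕ × ℕ × ℕ => (m x.1).A
      (st (m x.1) x.2.2.2.1 (pv (e x.1) x.2.2.1 % 2 ^ e x.1))) :=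
    LS.comp (g := fun z : κ × ℕ => (m z.1).A z.2)
      (f := fun x : κ × ℕ × ℕ × ℕ × ℕ × ℕ => (x.1,
        st (m x.1) x.2.2.2.1 (pv (e x.1) x.2.2.1 % 2 ^ e x.1)))
      h.lA (by fun_prop)
  have hq0 : LS (fun x : κ × ℕ × ℕ × ℕ × ℕ × ℕ => (m x.1).q0) :=
    LS.comp (g := fun z : κ => (m z).q0) h.lq0 (by fun_prop)
  have hM0 : LS (fun x : κ × ℕ × ℕ × ℕ × ℕ × ℕ => (m x.1).M0 (x.2.2.2.1 - 1)) :=
    LS.comp (g := fun z : κ × ℕ => (m z.1).M0 z.2)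
      (f := fun x : κ × ℕ × ℕ × ℕ × ℕ × ℕ => (x.1, x.2.2.2.1 - 1)) h.lM0 (by fun_prop)
  have hsz : LS (fun x : κ × ℕ × ℕ × ℕ × ℕ × ℕ => st (m x.1) x.2.2.2.2.2 (2 ^ e x.1)) :=
    LS.comp (g := fun x : κ × ℕ × ℕ => st (m x.1) x.2.1 x.2.2)
      (f := fun x : κ × ℕ × ℕ × ℕ × ℕ × ℕ => (x.1, x.2.2.2.2.2, 2 ^ e x.1))
      (ls_st h) (by fun_prop)
  have hcz : LS (fun x : κ × ℕ × ℕ × ℕ × ℕ × ℕ =>
      ct (m x.1) x.2.2.2.2.2 (x.2.2.2.1 - 1) x.2.2.2.2.1 (2 ^ e x.1)) :=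
    LS.comp
      (g := fun x : κ × ℕ × ℕ × ℕ × ℕ => ct (m x.1) x.2.1 x.2.2.1 x.2.2.2.1 x.2.2.2.2)
      (f := fun x : κ × ℕ × ℕ × ℕ × ℕ × ℕ => (x.1, x.2.2.2.2.2, x.2.2.2.1 - 1, x.2.2.2.2.1,
        2 ^ e x.1)) (ls_ct h) (by fun_prop)
  have hcx : LS (fun x : κ × ℕ × ℕ × ℕ × ℕ × ℕ =>
      ct (m x.1) x.2.2.2.1 ((m x.1).A (st (m x.1) x.2.2.2.1 (pv (e x.1) x.2.2.1 % 2 ^ e x.1)))
        x.2.2.2.2.1 (pv (e x.1) x.2.2.1 % 2 ^ e x.1)) :=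
    LS.comp
      (g := fun x : κ × ℕ × ℕ × ℕ × ℕ => ct (m x.1) x.2.1 x.2.2.1 x.2.2.2.1 x.2.2.2.2)
      (f := fun x : κ × ℕ × ℕ × ℕ × ℕ × ℕ => (x.1, x.2.2.2.1,
        (m x.1).A (st (m x.1) x.2.2.2.1 (pv (e x.1) x.2.2.1 % 2 ^ e x.1)),
        x.2.2.2.2.1, pv (e x.1) x.2.2.1 % 2 ^ e x.1))
      (ls_ct h) (by fun_prop)
  have hR : LS (fun x : κ × ℕ × ℕ × ℕ × ℕ × ℕ => (m x.1).R
      (st (m x.1) x.2.2.2.1 (pv (e x.1) x.2.2.1 % 2 ^ e x.1))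
      (ct (m x.1) x.2.2.2.1 ((m x.1).A (st (m x.1) x.2.2.2.1 (pv (e x.1) x.2.2.1 % 2 ^ e x.1)))
        x.2.2.2.2.1 (pv (e x.1) x.2.2.1 % 2 ^ e x.1))) :=
    LS.comp (g := fun z : κ × ℕ × ℕ => (m z.1).R z.2.1 z.2.2)
      (f := fun x : κ × ℕ × ℕ × ℕ × ℕ × ℕ => (x.1,
        st (m x.1) x.2.2.2.1 (pv (e x.1) x.2.2.1 % 2 ^ e x.1),
        ct (m x.1) x.2.2.2.1
          ((m x.1).A (st (m x.1) x.2.2.2.1 (pv (e x.1) x.2.2.1 % 2 ^ e x.1)))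
          x.2.2.2.2.1 (pv (e x.1) x.2.2.1 % 2 ^ e x.1)))
      h.lR (by fun_prop)
  have hpw : LS (fun x : κ × ℕ × ℕ × ℕ × ℕ × ℕ => 2 ^ ((m x.1).s + (m x.1).g *
      (pv (e x.1) x.2.2.1 % 2 ^ e x.1))) :=
    LS.comp (g := fun x : κ × ℕ => 2 ^ ((m x.1).s + (m x.1).g * (x.2 % 2 ^ e x.1)))
      (f := fun x : κ × ℕ × ℕ × ℕ × ℕ × ℕ => (x.1, pv (e x.1) x.2.2.1))
      (ls_pow h) (by fun_prop)
  have hNN : LS (fun x : κ × ℕ × ℕ × ℕ × ℕ × ℕ => N x.1) :=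
    LS.comp (g := fun z : κ => N z) h.lNN (by fun_prop)
  have hb : LS (fun x : κ × ℕ × ℕ × ℕ × ℕ × ℕ => b x.1) :=
    LS.comp (g := fun z : κ => b z) h.lb (by fun_prop)
  have hl : LS (fun x : κ × ℕ × ℕ × ℕ × ℕ × ℕ => Nat.log 2 x.2.2.1) := LS.log2 (by fun_prop)
  unfold tb
  refine LS.modPow (LS.const 2) ?_ hb
  unfold tb0 tb1 tb2
  have hx : LS (fun x : κ × ℕ × ℕ × ℕ × ℕ × ℕ => x.2.2.2.1) := by fun_prop
  have hy : LS (fun x : κ × ℕ × ℕ × ℕ × ℕ × ℕ => x.2.2.2.2.1) := by fun_prop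
  have hz : LS (fun x : κ × ℕ × ℕ × ℕ × ℕ × ℕ => x.2.2.2.2.2) := by fun_prop
  have hm : LS (fun x : κ × ℕ × ℕ × ℕ × ℕ × ℕ => x.2.1) := by fun_prop
  have h0 : LS (fun _ : κ × ℕ × ℕ × ℕ × ℕ × ℕ => (0 : ℕ)) := LS.const 0
  have s1 := LS.sub hk (LS.const 1)
  have s2 := LS.sub hk (LS.const 2)
  have s3 := LS.sub hk (LS.const 3)
  refine LS.ifz hm ?_ (LS.ifz (LS.sub hm (LS.const 1)) ?_ ?_)
  · exact LS.ifz hk hx (LS.ifz s1 hx (LS.ifz s2 h0 (LS.ifz s3 hx (LS.succ hA))))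
  · exact LS.ifz hk h0 (LS.ifz s1 h0 (LS.ifz s2 hy (LS.ifz s3 hy h0)))
  · exact LS.ifz hk (LS.ifz (LS.sub hNN hl) (LS.ifz hx hq0 hM0) (LS.ifz hx hsz hcz))
      (LS.ifz s1 hy (LS.ifz s2 hz (LS.ifz s3 hz (LS.add hx (LS.mul hpw hR)))))

end

/-! ### The family `qW` -/

theorem T_zn (z : Qw) : Qn.T (zn z) = z.1.2.2.2 := by
  show z.1.2.2.2 * (2 * z.1.2.1 + 2) / (2 * z.1.2.1 + 2) = z.1.2.2.2
  exact Nat.mul_div_cancel _ (by omega)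

theorem n_zn (z : Qw) : Qn.n (zn z) = Nat.log 2 z.1.2.1 := rfl

theorem ls_zn : LS zn := by
  unfold zn
  fun_prop

theorem le01_le (a b : ℕ) : le01 a b ≤ 1 := by
  unfold le01
  split_ifs <;> omega

theorem okW_ne {n T : ℕ} (h : okW n T ≠ 0) : bT n T 3 = bT n T 0 ∧ okW n T = 1 := by
  unfold okW at h ⊢
  have h1 := left_ne_zero_of_mul h
  have h2 := right_ne_zero_of_mul h
  have h3 := left_ne_zero_of_mul h2
  have h4 := right_ne_zero_of_mul h2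
  have h5 := left_ne_zero_of_mul h4
  have h6 := right_ne_zero_of_mul h4
  have h7 := left_ne_zero_of_mul h6
  have h8 := right_ne_zero_of_mul h6
  have e3 : eq01 (bT n T 2) (bT n T 0) = 1 := by
    unfold eq01 at h3 ⊢
    split_ifs at h3 ⊢ <;> first | rfl | exact absurd rfl h3
  have e5 : bT n T 3 = bT n T 0 := by
    by_contra hne
    unfold eq01 at h5
    rw [if_neg hne] at h5
    exact h5 rfl
  have e5' : eq01 (bT n T 3) (bT n T 0) = 1 := by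
    unfold eq01
    rw [if_pos e5]
  have hle : ∀ a b : ℕ, le01 a b ≠ 0 → le01 a b = 1 := by
    intro a b hab
    have := le01_le a b
    omega
  have e1 : okV n T = 1 := by
    unfold okV at h1 ⊢
    rw [hle _ _ (left_ne_zero_of_mul h1), hle _ _ (left_ne_zero_of_mul (right_ne_zero_of_mul h1)),
      hle _ _ (right_ne_zero_of_mul (right_ne_zero_of_mul h1))]
  refine ⟨e5, ?_⟩
  rw [e1, e3, e5', hle _ _ h7, hle _ _ h8]

theorem V_le0 (n T : ℕ) : okW n T * bT n T 0 ≤ bT n T 0 := by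
  rcases Nat.eq_zero_or_pos (okW n T) with h | h
  · rw [h, zero_mul]
    exact Nat.zero_le _
  · rw [(okW_ne h.ne').2, one_mul]

theorem V_le3 (n T : ℕ) : okW n T * bT n T 0 ≤ bT n T 3 := by
  rcases Nat.eq_zero_or_pos (okW n T) with h | h
  · rw [h, zero_mul]
    exact Nat.zero_le _
  · rw [(okW_ne h.ne').2, one_mul, (okW_ne h.ne').1]

theorem Z_le1 (n T : ℕ) : okW n T * bT n T 1 ≤ bT n T 1 := by
  rcases Nat.eq_zero_or_pos (okW n T) with h | h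
  · rw [h, zero_mul]
    exact Nat.zero_le _
  · rw [(okW_ne h.ne').2, one_mul]

theorem s_mW (c₀ : ℕ) (z : Qw) : (mW c₀ z).s =
    okW (Nat.log 2 z.1.2.1) z.1.2.2.2 * bT (Nat.log 2 z.1.2.1) z.1.2.2.2 0 + 1 := rfl

theorem g_mW (c₀ : ℕ) (z : Qw) : (mW c₀ z).g =
    okW (Nat.log 2 z.1.2.1) z.1.2.2.2 * bT (Nat.log 2 z.1.2.1) z.1.2.2.2 0 + 1 := rfl

theorem a_mW (c₀ : ℕ) (z : Qw) : (mW c₀ z).a =
    okW (Nat.log 2 z.1.2.1) z.1.2.2.2 * bT (Nat.log 2 z.1.2.1) z.1.2.2.2 1 + 1 := rfl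

theorem lmW (hU : UMC_stmt) (hM : PMW_stmt) (hPar : ParOK) (hL : LSParOK) (hLSW : LSW_stmt)
    (c₀ : ℕ) : LM (mW c₀) (fun z => eV (Qn.n (zn z)) (Qn.T (zn z))) (fun z => Qn.N (zn z))
      (fun z => Qn.b (zn z)) (fun z => CT z.1.2.1) (fun z => CT z.1.2.1) := by
  obtain ⟨hp, _⟩ := hM.ls Qw c₀ (fun z => z.1.1) (fun z => z.1.2.1) (fun z => z.1.2.2.1)
    (fun z => z.1.2.2.2) (by fun_prop) (by fun_prop) (by fun_prop) (by fun_prop)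
  obtain ⟨w1, w2, _, w4, w5, w6, _⟩ := hLSW Qw
    (fun z => prmW c₀ z.1.1 z.1.2.1 z.1.2.2.1 z.1.2.2.2) (fun z => CS c₀ z.1.2.1)
    (fun z => z.2.1) (fun z => z.2.2.1) (fun z => z.2.2.2.1) (fun z => z.2.2.2.2.1)
    (fun z => z.2.2.2.2.2.1) (fun z => z.2.2.2.2.2.2.1) (fun z => z.2.2.2.2.2.2.2) hp
    (by fun_prop) (by fun_prop) (by fun_prop) (by fun_prop) (by fun_prop) (by fun_prop)
    (by fun_prop)
  have hV : LS (fun z : Qw => (prmW c₀ z.1.1 z.1.2.1 z.1.2.2.1 z.1.2.2.2).V) := hp.V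
  have hok : ∀ z, (mW c₀ z).Ok := fun z => hU.ok _ _ _ _ _ _ _ _
  have hCT : LS (fun z : Qw => CT z.1.2.1) := ls_CT (by fun_prop)
  have hbound : ∀ (z : Qw) (k : ℕ), k ≤ bT (Nat.log 2 z.1.2.1) z.1.2.2.2 0 ∨
      k ≤ bT (Nat.log 2 z.1.2.1) z.1.2.2.2 1 → 2 ^ (k + 1) ≤ CT z.1.2.1 := by
    intro z k hk
    have h0 := bT_le (Nat.log 2 z.1.2.1) z.1.2.2.2 0
    have h1 := bT_le (Nat.log 2 z.1.2.1) z.1.2.2.2 1
    exact two_pow_CT (by omega)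
  have hexp : ∀ z : Qw, bT (Nat.log 2 z.1.2.1) z.1.2.2.2 0 + 1 +
      (bT (Nat.log 2 z.1.2.1) z.1.2.2.2 3 + 1) * 2 ^ eV (Qn.n (zn z)) (Qn.T (zn z)) ≤
      3 * (Nat.log 2 z.1.2.1 + 1) := by
    intro z
    have h := (hPar.1 (Qn.n (zn z)) (Qn.T (zn z))).2.2.2.2
    rw [T_zn, n_zn] at h ⊢
    exact h
  exact
  { hC := hCT
    hD := hCT
    hs := LS.add hV (LS.const 1)
    hg := LS.add hV (LS.const 1)
    bs := fun z => by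
      rw [s_mW]
      exact hbound z _ (Or.inl (V_le0 _ _))
    ba := fun z => by
      rw [a_mW]
      exact hbound z _ (Or.inr (Z_le1 _ _))
    bg := fun z => by
      rw [g_mW]
      exact hbound z _ (Or.inl (V_le0 _ _))
    hN := fun z => (hok z).hN
    hW := fun z => (hok z).hW
    lA := w1
    lR := w2
    lN := LS.capN (LS.comp (g := fun z : Qw => (prmW c₀ z.1.1 z.1.2.1 z.1.2.2.1 z.1.2.2.2).V)
      (f := fun x : Qw × ℕ × ℕ => x.1) hV (by fun_prop)) (by fun_prop)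
    lW := by
      have hc : LS (fun x : Qw × ℕ × ℕ × ℕ × ℕ =>
          capN (prmW c₀ x.1.1.1 x.1.1.2.1 x.1.1.2.2.1 x.1.1.2.2.2).V x.2.2.1) :=
        LS.capN (LS.comp (g := fun z : Qw => (prmW c₀ z.1.1 z.1.2.1 z.1.2.2.1 z.1.2.2.2).V)
          (f := fun x : Qw × ℕ × ℕ × ℕ × ℕ => x.1) hV (by fun_prop)) (by fun_prop)
      exact LS.comp (g := fun z : Qw × ℕ × ℕ × ℕ =>
          (prmW c₀ z.1.1.1 z.1.1.2.1 z.1.1.2.2.1 z.1.1.2.2.2).wW z.2.1 z.2.2.1 z.2.2.2)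
        (f := fun x : Qw × ℕ × ℕ × ℕ × ℕ => (x.1, x.2.2.2.1,
          capN (prmW c₀ x.1.1.1 x.1.1.2.1 x.1.1.2.2.1 x.1.1.2.2.2).V x.2.2.1, x.2.2.2.2)) w4
        (LS.prodMk (by fun_prop) (LS.prodMk (by fun_prop) (LS.prodMk hc (by fun_prop))))
    lq0 := w5
    lM0 := w6
    le := LS.comp (g := fun z : Qn => eV (Qn.n z) (Qn.T z)) hL.2.2.2.2.2.1 ls_zn
    be := fun z => by
      have h := hexp z
      have h3 : 1 * 2 ^ eV (Qn.n (zn z)) (Qn.T (zn z)) ≤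
          (bT (Nat.log 2 z.1.2.1) z.1.2.2.2 3 + 1) * 2 ^ eV (Qn.n (zn z)) (Qn.T (zn z)) :=
        Nat.mul_le_mul_right _ (by omega)
      have h4 : eV (Qn.n (zn z)) (Qn.T (zn z)) < 2 ^ eV (Qn.n (zn z)) (Qn.T (zn z)) :=
        Nat.lt_two_pow_self
      exact two_pow_CT (by omega)
    bp := fun z t ht => by
      have h := hexp z
      have hV0 := V_le0 (Nat.log 2 z.1.2.1) z.1.2.2.2
      have hV3 := V_le3 (Nat.log 2 z.1.2.1) z.1.2.2.2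
      rw [s_mW, g_mW]
      have h3 : (okW (Nat.log 2 z.1.2.1) z.1.2.2.2 * bT (Nat.log 2 z.1.2.1) z.1.2.2.2 0 + 1) *
          t ≤ (bT (Nat.log 2 z.1.2.1) z.1.2.2.2 3 + 1) * 2 ^ eV (Qn.n (zn z)) (Qn.T (zn z)) :=
        Nat.mul_le_mul (by omega) ht.le
      exact two_pow_CT (by omega)
    lNN := LS.comp (g := Qn.N) hL.2.2.2.2.2.2.2.2.1 ls_zn
    lb := LS.comp (g := Qn.b) hL.2.2.2.2.2.2.2.2.2.2.1 ls_zn }

theorem gQWO : GoalQWO := by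
  intro hU hM hPar hL hWt hLSW c₀
  have hls := (hM.ls Qw c₀ (fun z => z.1.1) (fun z => z.1.2.1) (fun z => z.1.2.2.1)
    (fun z => z.1.2.2.2) (by fun_prop) (by fun_prop) (by fun_prop) (by fun_prop)).2
  exact
  { hq := fun z => (hPar.1 _ _).1
    hN := fun z => (hPar.1 _ _).2.1
    hb := fun z => (hPar.1 _ _).2.2.1
    hc := fun z => (hPar.1 _ _).2.2.2.1
    hW := fun z => hWt (zn z)
    ht := fun z mm v x y w => Nat.mod_lt _ (by positivity)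
    lN := LS.comp (g := Qn.N) hL.2.2.2.2.2.2.2.2.1 ls_zn
    lq := LS.comp (g := Qn.q) hL.2.2.2.2.2.2.2.2.2.1 ls_zn
    lb := LS.comp (g := Qn.b) hL.2.2.2.2.2.2.2.2.2.2.1 ls_zn
    lc := LS.comp (g := Qn.c) hL.2.2.2.2.2.2.2.2.2.2.2.1 ls_zn
    lW := LS.comp (g := Qn.W) hL.2.2.2.2.2.2.2.2.2.2.2.2.1 ls_zn
    lt := tls (lmW hU hM hPar hL hLSW c₀)
    ls := by
      have h1 : LS (fun x : Qw × ℕ => okW (Qn.n (zn x.1)) (Qn.T (zn x.1))) := by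
        have h2 : LS (fun x : Qw × ℕ => okW (Nat.log 2 x.1.1.2.1) x.1.1.2.2.2) :=
          LS.comp (g := fun z : Qw => okW (Nat.log 2 z.1.2.1) z.1.2.2.2)
            (f := fun x : Qw × ℕ => x.1) hls (by fun_prop)
        refine LS.congr h2 fun x => ?_
        rw [T_zn, n_zn]
      exact LS.mul h1 (LS.eq01 (by fun_prop) (LS.const 1)) }

end Pool.Agent.Helper44.UW
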